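import Pool.Agent.helper56.P3.ClDefs
import Pool.Agent.helper56.P3.GenericExact

/-!
# P3-CL2: classes and cycles
-/

namespace Pool.Agent.helper56.P3

open Finset Pool.Agent.helper56.Per

/-- every class is the class of a normal form, or the class of `S` -/
theorem exists_Phi (c : M2) :
    c = Quot.mk _ QMap.S ∨ ∃ a b : ℂ, a * b ≠ 1 ∧ c = Phi (a, b) := by
  induction c using Quot.ind with
  | mk f =>
    obtain ⟨w1, w2, d, hw, hw1, hw2⟩ := exists_fixed f
    rcases second_fixed f hw hw1 hw2 with ⟨u1, u2, c, hdet, hu1, hu2⟩ | hS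
    · right
      obtain ⟨a, b, hN⟩ := hasN_of_fixed f hdet hu1 hu2 hw1 hw2
      exact ⟨a, b, hN.ab, (Phi_eq hN).symm⟩
    · left
      exact hS

/-! ### transport of normal forms along conjugacies -/

theorem conj_symm {f g : QMap} (h : QMap.Conj f g) : QMap.Conj g f := by
  obtain ⟨p, q, r, t, s, hD, hs, h⟩ := h
  refine ⟨t, -q, -r, p, (p * t - q * r) / s, ?_, div_ne_zero hD hs, fun x y => ?_⟩
  · intro h0
    apply hD
    linear_combination h0
  · obtain ⟨h1, h2⟩ := h (t * x + -q * y) (-r * x + p * y)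
    have e1 : p * (t * x + -q * y) + q * (-r * x + p * y) = (p * t - q * r) * x := by ring
    have e2 : r * (t * x + -q * y) + t * (-r * x + p * y) = (p * t - q * r) * y := by ring
    rw [e1, e2] at h1 h2
    have e3 : f.X ((p * t - q * r) * x) ((p * t - q * r) * y)
        = (p * t - q * r) ^ 2 * f.X x y := by simp only [QMap.X]; ring
    have e4 : f.Y ((p * t - q * r) * x) ((p * t - q * r) * y)
        = (p * t - q * r) ^ 2 * f.Y x y := by simp only [QMap.Y]; ring
    rw [e3] at h1
    rw [e4] at h2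
    generalize g.X (t * x + -q * y) (-r * x + p * y) = A at *
    generalize g.Y (t * x + -q * y) (-r * x + p * y) = B at *
    constructor
    · field_simp
      apply mul_left_cancel₀ hD
      linear_combination (-t) * h1 + q * h2
    · field_simp
      apply mul_left_cancel₀ hD
      linear_combination r * h1 - p * h2

theorem HasN.of_conj {f g : QMap} {a b : ℂ} (h : QMap.Conj f g)
    (hg : ∃ p q r t, HasN g a b p q r t) : ∃ p q r t, HasN f a b p q r t := by
  obtain ⟨P, Q, R, T, s, hD, hs, h⟩ := h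
  obtain ⟨p, q, r, t, hg⟩ := hg
  refine ⟨(P * p + Q * r) / s, (P * q + Q * t) / s, (R * p + T * r) / s, (R * q + T * t) / s,
    ?_, hg.ab, fun x y => ?_, fun x y => ?_⟩
  · have : (P * p + Q * r) / s * ((R * q + T * t) / s) - (P * q + Q * t) / s
        * ((R * p + T * r) / s) = (P * T - Q * R) * (p * t - q * r) / s ^ 2 := by
      field_simp; ring
    rw [this]
    exact div_ne_zero (mul_ne_zero hD hg.det) (pow_ne_zero _ hs)
  · have h1 := (h (p * x + q * y) (r * x + t * y)).1
    rw [hg.hX, hg.hY] at h1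
    have e : f.X ((P * p + Q * r) / s * x + (P * q + Q * t) / s * y)
        ((R * p + T * r) / s * x + (R * q + T * t) / s * y)
        = f.X (P * (p * x + q * y) + Q * (r * x + t * y))
          (R * (p * x + q * y) + T * (r * x + t * y)) / s ^ 2 := by
      simp only [QMap.X]; field_simp; ring
    rw [e, h1]
    field_simp
    ring
  · have h1 := (h (p * x + q * y) (r * x + t * y)).2
    rw [hg.hX, hg.hY] at h1
    have e : f.Y ((P * p + Q * r) / s * x + (P * q + Q * t) / s * y)
        ((R * p + T * r) / s * x + (R * q + T * t) / s * y)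
        = f.Y (P * (p * x + q * y) + Q * (r * x + t * y))
          (R * (p * x + q * y) + T * (r * x + t * y)) / s ^ 2 := by
      simp only [QMap.Y]; field_simp; ring
    rw [e, h1]
    field_simp
    ring

theorem hasN_N {a b : ℂ} (hab : a * b ≠ 1) : HasN (QMap.N a b hab) a b 1 0 0 1 := by
  refine ⟨by norm_num, hab, fun x y => ?_, fun x y => ?_⟩ <;> simp only [QMap.X, QMap.Y, QMap.N] <;>
    ring

theorem Phi_N {a b : ℂ} (hab : a * b ≠ 1) : Phi (a, b) = Quot.mk _ (QMap.N a b hab) :=
  Phi_eq (hasN_N hab)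

theorem hasN_of_mk {f : QMap} {a b : ℂ} (hab : a * b ≠ 1)
    (h : (Quot.mk _ f : M2) = Phi (a, b)) : ∃ p q r t, HasN f a b p q r t := by
  rw [Phi_N hab] at h
  have key : ∀ f g : QMap, Relation.EqvGen QMap.Conj f g →
      ((∃ p q r t, HasN f a b p q r t) ↔ ∃ p q r t, HasN g a b p q r t) := by
    intro f g hfg
    induction hfg with
    | rel x y h => exact ⟨HasN.of_conj (conj_symm h), HasN.of_conj h⟩
    | refl x => exact Iff.rfl
    | symm x y _ ih => exact ih.symm
    | trans x y z _ _ ih1 ih2 => exact ih1.trans ih2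
  exact (key _ _ (Quot.eqvGen_exact h)).2 ⟨1, 0, 0, 1, hasN_N hab⟩

theorem Phi_swap {a b : ℂ} (hab : a * b ≠ 1) : Phi (a, b) = Phi (b, a) := by
  have hba : b * a ≠ 1 := by rwa [mul_comm]
  rw [Phi_N hab, Phi_N hba]
  apply Quot.sound
  refine ⟨0, 1, 1, 0, 1, by norm_num, one_ne_zero, fun x y => ?_⟩
  simp only [QMap.X, QMap.Y, QMap.N]
  constructor <;> ring

/-! ### cycles of the normal form -/

theorem N_den (a b : ℂ) (hab : a * b ≠ 1) (z : ℂ) : (QMap.N a b hab).den z = b * z + 1 := by
  simp only [QMap.den, QMap.N]; ring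

theorem N_num (a b : ℂ) (hab : a * b ≠ 1) (z : ℂ) : (QMap.N a b hab).num z = z * (z + a) := by
  simp only [QMap.num, QMap.N]; ring

theorem N_B (a b : ℂ) (hab : a * b ≠ 1) (z : ℂ) :
    (QMap.N a b hab).B z 1 z 1 = b * z ^ 2 + 2 * z + a := by
  simp only [QMap.B, QMap.N]; ring

theorem N_iter {a b lam : ℂ} (hab : a * b ≠ 1) {n : ℕ} {z : ℕ → ℂ} (h : NCyc a b n lam z)
    (i : ℕ) : (QMap.N a b hab).toFun^[i] (z 0) = z i := by
  induction i with
  | zero => rfl
  | succ i ih =>
    rw [Function.iterate_succ_apply', ih]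
    show (QMap.N a b hab).num (z i) / (QMap.N a b hab).den (z i) = z (i + 1)
    rw [N_den, N_num, div_eq_iff (h.den i), h.step i]

theorem isPer_N {a b lam : ℂ} (hab : a * b ≠ 1) {n : ℕ} {z : ℕ → ℂ} (h : NCyc a b n lam z)
    (hx : Exact n z) : IsPer (QMap.N a b hab) n lam (z 0) := by
  have hit := N_iter hab h
  have hden : ∀ i, (QMap.N a b hab).den ((QMap.N a b hab).toFun^[i] (z 0)) ≠ 0 := by
    intro i
    rw [hit, N_den]
    exact h.den i
  refine ⟨h.npos, hden, ?_, ?_⟩
  · have hper : Function.IsPeriodicPt (QMap.N a b hab).toFun n (z 0) := by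
      show (QMap.N a b hab).toFun^[n] (z 0) = z 0
      rw [hit]
      have := h.per 0
      rwa [zero_add] at this
    have h1 := hper.minimalPeriod_dvd
    have h2 := Function.iterate_minimalPeriod (f := (QMap.N a b hab).toFun) (x := z 0)
    rw [hit] at h2
    have h3 := hx _ _ h2
    rw [Nat.zero_mod] at h3
    exact Nat.dvd_antisymm h1 (Nat.dvd_of_mod_eq_zero h3)
  · rw [((QMap.N a b hab).hasDerivAt_iterate hden n).deriv]
    simp only [hit, N_B, N_den]
    rw [prod_div_distrib, h.mul, mul_div_assoc, div_self, mul_one]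
    exact prod_ne_zero_iff.2 fun i _ => pow_ne_zero _ (h.den i)

theorem perSet_iff_two {n : ℕ} {lam a b : ℂ} (hn : 2 ≤ n) (hab : a * b ≠ 1) :
    Phi (a, b) ∈ perSet n lam ↔ QC n lam a b := by
  constructor
  · rintro ⟨f, z, hf, hz⟩
    obtain ⟨p, q, r, t, hN⟩ := hasN_of_mk hab hf
    obtain ⟨h1, h2⟩ := hN.ncyc hz hn
    exact ⟨_, h1, HasN.exact hN hz h2⟩
  · rintro ⟨z, hz, hx⟩
    exact ⟨QMap.N a b hab, z 0, (Phi_N hab).symm, isPer_N hab hz hx⟩

/-- fixed points of the normal form -/
theorem isPer_fix {a b lam : ℂ} (hab : a * b ≠ 1) {z : ℂ} (hd : b * z + 1 ≠ 0)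
    (hfix : z * (z + a) = z * (b * z + 1)) (hmul : b * z ^ 2 + 2 * z + a = lam * (b * z + 1) ^ 2) :
    IsPer (QMap.N a b hab) 1 lam z ∧ ∀ i, (QMap.N a b hab).toFun^[i] z = z := by
  have h1 : (QMap.N a b hab).toFun z = z := by
    show (QMap.N a b hab).num z / (QMap.N a b hab).den z = z
    rw [N_den, N_num, div_eq_iff hd, hfix]
  have hit : ∀ i, (QMap.N a b hab).toFun^[i] z = z := fun i => Function.iterate_fixed h1 i
  have hden : ∀ i, (QMap.N a b hab).den ((QMap.N a b hab).toFun^[i] z) ≠ 0 := by
    intro i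
    rw [hit, N_den]
    exact hd
  refine ⟨⟨one_pos, hden, Function.minimalPeriod_eq_one_iff_isFixedPt.2 h1, ?_⟩, hit⟩
  rw [((QMap.N a b hab).hasDerivAt_iterate hden 1).deriv]
  simp only [hit, N_B, N_den, range_one, prod_singleton]
  rw [hmul, mul_div_assoc, div_self (pow_ne_zero _ hd), mul_one]

theorem fix_zero {a b : ℂ} (hab : a * b ≠ 1) :
    IsPer (QMap.N a b hab) 1 a 0 ∧ ∀ i, (QMap.N a b hab).toFun^[i] 0 = 0 :=
  isPer_fix hab (by rw [mul_zero, zero_add]; exact one_ne_zero) (by ring) (by ring)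

theorem fix_third {a b : ℂ} (hab : a * b ≠ 1) (hb : b ≠ 1) :
    IsPer (QMap.N a b hab) 1 ((2 - a - b) / (1 - a * b)) ((1 - a) / (1 - b)) ∧
      ∀ i, (QMap.N a b hab).toFun^[i] ((1 - a) / (1 - b)) = (1 - a) / (1 - b) := by
  have h1 : 1 - b ≠ 0 := sub_ne_zero.2 (Ne.symm hb)
  have h2 : 1 - a * b ≠ 0 := sub_ne_zero.2 (Ne.symm hab)
  have e : b * ((1 - a) / (1 - b)) + 1 = (1 - a * b) / (1 - b) := by field_simp; ring
  refine isPer_fix hab ?_ ?_ ?_
  · rw [e]
    exact div_ne_zero h2 h1
  · rw [e]
    field_simp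
    ring
  · rw [e]
    field_simp
    ring

theorem perSet_iff_one {lam a b : ℂ} (hab : a * b ≠ 1) :
    Phi (a, b) ∈ perSet 1 lam ↔ (lam = a ∨ lam = b ∨ lam = (2 - a - b) / (1 - a * b)) := by
  have hba : b * a ≠ 1 := by rwa [mul_comm]
  have h2 : 1 - a * b ≠ 0 := sub_ne_zero.2 (Ne.symm hab)
  constructor
  · rintro ⟨f, z, hf, hz⟩
    obtain ⟨p, q, r, t, hN⟩ := hasN_of_mk hab hf
    have hc := hN.hcyc hz
    have hx := hc.fx 0
    have hy := hc.fy 0
    have px := hc.perX 0
    have py := hc.perY 0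
    have hm := hc.mul
    have hcn := hc.cne 0
    simp only [range_one, prod_singleton] at hm
    beta_reduce at hx hy px py hm hcn
    rw [px] at hx
    rw [py] at hy
    set X := t * f.toFun^[0] z - q with hX
    set Y := p - r * f.toFun^[0] z with hY
    set c := (p * t - q * r) * f.den (f.toFun^[0] z) with hcd
    by_cases hX0 : X = 0
    · have hY0 : Y ≠ 0 := by
        intro h0
        rw [hX0, h0] at hm
        have : lam * c ^ 2 = 0 := by rw [← hm]; ring
        have hD := hN.det
        apply hD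
        have e1 : t * (f.toFun^[0] z) = q := by linear_combination hX0
        have e2 : p = r * (f.toFun^[0] z) := by linear_combination h0
        linear_combination t * e2 + r * e1
      left
      rw [hX0] at hy hm
      have e1 : c = Y := by
        apply mul_right_cancel₀ hY0
        linear_combination (-1 : ℂ) * hy
      rw [e1] at hm
      have : (lam - a) * Y ^ 2 = 0 := by linear_combination (-1 : ℂ) * hm
      exact sub_eq_zero.1 ((mul_eq_zero.1 this).resolve_right (pow_ne_zero _ hY0))
    · by_cases hY0 : Y = 0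
      · right; left
        rw [hY0] at hx hm
        have e1 : c = X := by
          apply mul_right_cancel₀ hX0
          linear_combination (-1 : ℂ) * hx
        rw [e1] at hm
        have : (lam - b) * X ^ 2 = 0 := by linear_combination (-1 : ℂ) * hm
        exact sub_eq_zero.1 ((mul_eq_zero.1 this).resolve_right (pow_ne_zero _ hX0))
      · right; right
        have e1 : X + a * Y = c := by
          apply mul_left_cancel₀ hX0
          linear_combination hx
        have e2 : b * X + Y = c := by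
          apply mul_left_cancel₀ hY0
          linear_combination hy
        have e3 : X + Y = lam * c := by
          apply mul_left_cancel₀ hcn
          linear_combination hm - X * e2 - Y * e1
        rw [eq_div_iff h2]
        apply mul_left_cancel₀ hcn
        linear_combination (-(1 - a * b)) * e3 + (1 - b) * e1 + (1 - a) * e2
  · rintro (rfl | rfl | rfl)
    · exact ⟨_, 0, (Phi_N hab).symm, (fix_zero hab).1⟩
    · rw [Phi_swap hab]
      exact ⟨_, 0, (Phi_N hba).symm, (fix_zero hba).1⟩
    · by_cases hb : b = 1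
      · have ha : a ≠ 1 := by rintro rfl; exact hab (by rw [hb, mul_one])
        have e : (2 - a - b) / (1 - a * b) = b := by
          rw [div_eq_iff h2, hb]; ring
        rw [e, Phi_swap hab]
        exact ⟨_, 0, (Phi_N hba).symm, (fix_zero hba).1⟩
      · exact ⟨_, _, (Phi_N hab).symm, (fix_third hab hb).1⟩

/-! ### two cycles -/

theorem prod_shift_per {M : Type*} [CommMonoid M] (G : ℕ → M) (n : ℕ) (hG : ∀ i, G (i + n) = G i)
    (i : ℕ) : ∏ k ∈ range n, G (i + k) = ∏ k ∈ range n, G k := by
  induction i with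
  | zero => simp
  | succ i ih =>
    rw [← ih]
    have h := prod_shift (fun k => G (i + k)) n (by simp only [add_zero]; exact hG i)
    rw [← h]
    exact prod_congr rfl fun k _ => by rw [show i + 1 + k = i + (k + 1) by ring]

/-- two cycles with a common point have the same data -/
theorem ncyc_shared {a b lam lam' : ℂ} {n m : ℕ} {z y : ℕ → ℂ} (hz : NCyc a b n lam z)
    (hy : NCyc a b m lam' y) (hzx : Exact n z) (hyx : Exact m y) {i : ℕ} (h : z i = y 0) :
    (n, lam) = (m, lam') := by
  have hk : ∀ k, z (i + k) = y k := by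
    intro k
    induction k with
    | zero => simpa using h
    | succ k ih =>
      apply mul_right_cancel₀ (hy.den k)
      rw [hy.step k, ← ih, ← hz.step (i + k)]
      rfl
  have h1 : n = m := by
    apply Nat.dvd_antisymm
    · have e : z (i + m) = z (i + 0) := by
        rw [hk, hk]
        have := hy.per 0
        rwa [zero_add] at this
      have := hzx _ _ e
      exact (Nat.modEq_zero_iff_dvd.1 (Nat.ModEq.add_left_cancel' i this))
    · have e : y n = y 0 := by
        rw [← hk, ← hk, hz.per, add_zero]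
      have := hyx _ _ e
      exact Nat.modEq_zero_iff_dvd.1 this
  subst h1
  have e1 : ∏ k ∈ range n, (b * z (i + k) ^ 2 + 2 * z (i + k) + a)
      = ∏ k ∈ range n, (b * z k ^ 2 + 2 * z k + a) :=
    prod_shift_per (fun k => b * z k ^ 2 + 2 * z k + a) n (fun i => by simp only [hz.per]) i
  have e2 : ∏ k ∈ range n, (b * z (i + k) + 1) ^ 2 = ∏ k ∈ range n, (b * z k + 1) ^ 2 :=
    prod_shift_per (fun k => (b * z k + 1) ^ 2) n (fun i => by simp only [hz.per]) i
  simp only [hk] at e1 e2
  have e3 := hy.mul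
  rw [e1, e2, hz.mul] at e3
  have hne : ∏ k ∈ range n, (b * z k + 1) ^ 2 ≠ 0 :=
    prod_ne_zero_iff.2 fun i _ => pow_ne_zero _ (hz.den i)
  rw [mul_right_cancel₀ hne e3]

/-- different data give different cycles, and there is a representative such that both cycles
avoid infinity -/
theorem inter_subset_common {n m : ℕ} {lam lam' : ℂ} (hne : (n, lam) ≠ (m, lam')) (hm : 2 ≤ m) :
    perSet n lam ∩ perSet m lam' ⊆ common n m lam lam' ∪ {Quot.mk _ QMap.S} := by
  rintro c ⟨h1, h2⟩
  rcases exists_Phi c with hc | ⟨a, b, hab, rfl⟩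
  · right
    exact hc
  left
  have hba : b * a ≠ 1 := by rwa [mul_comm]
  rcases (show n = 0 ∨ n = 1 ∨ 2 ≤ n by omega) with rfl | rfl | hn
  · obtain ⟨f, z, _, hz⟩ := h1
    exact absurd hz.1 (lt_irrefl 0)
  · -- a fixed point
    have key : ∀ a b : ℂ, a * b ≠ 1 → lam = a → Phi (a, b) ∈ perSet m lam' →
        Phi (a, b) ∈ common 1 m lam lam' := by
      intro a b hab hla h2
      obtain ⟨y, hy, hyx⟩ := (perSet_iff_two hm hab).1 h2
      refine ⟨QMap.N a b hab, 0, y 0, (Phi_N hab).symm, hla ▸ (fix_zero hab).1, isPer_N hab hy hyx,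
        fun i h0 => ?_⟩
      rw [(fix_zero hab).2] at h0
      exact hy.ne0 0 h0.symm
    rcases (perSet_iff_one hab).1 h1 with hl | hl | hl
    · exact key a b hab hl h2
    · rw [Phi_swap hab] at h2 ⊢
      exact key b a hba hl h2
    · by_cases hb : b = 1
      · have h3 : 1 - a * b ≠ 0 := sub_ne_zero.2 (Ne.symm hab)
        have e : (2 - a - b) / (1 - a * b) = b := by
          rw [div_eq_iff h3, hb]; ring
        rw [e] at hl
        rw [Phi_swap hab] at h2 ⊢
        exact key b a hba hl h2
      · obtain ⟨y, hy, hyx⟩ := (perSet_iff_two hm hab).1 h2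
        refine ⟨QMap.N a b hab, _, y 0, (Phi_N hab).symm, hl ▸ (fix_third hab hb).1,
          isPer_N hab hy hyx, fun i h0 => ?_⟩
        rw [(fix_third hab hb).2] at h0
        apply hy.ne 0
        have h4 := N_iter hab hy 1
        have h5 := (fix_third hab hb).2 1
        rw [h0] at h5
        rw [h5] at h4
        exact h4.symm
  · obtain ⟨z, hz, hzx⟩ := (perSet_iff_two hn hab).1 h1
    obtain ⟨y, hy, hyx⟩ := (perSet_iff_two hm hab).1 h2
    refine ⟨QMap.N a b hab, z 0, y 0, (Phi_N hab).symm, isPer_N hab hz hzx, isPer_N hab hy hyx,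
      fun i h0 => hne ?_⟩
    rw [N_iter hab hz] at h0
    exact ncyc_shared hz hy hzx hyx h0

end Pool.Agent.helper56.P3
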